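import Mathlib
import Pool.Agent.H.MP_3d7de8_lc.Main

set_option autoImplicit false

namespace Pool.Agent.Results.MP_3d7de8_lc.Q2

open Pool.Agent.H.MP_3d7de8_lc

universe u

theorem result (K : Type u) [Field K] (n r : ℕ) (A : Type u) [NonUnitalRing A]
    [Module K A] [IsScalarTower K A A] [SMulCommClass K A A] (e : Fin r → A)
    (hA : IsFree K (Solvable n) A e) : LogHomogeneous K A := by
  by_cases h2 : 2 ≤ n
  · have hp : 2 ^ 2 ≤ 2 ^ n := Nat.pow_le_pow_right two_pos h2
    exact free_homog _ e hA (fun S x hx => Subtype.ext (hA.1 _ (hx.coe S))) (N := 2 ^ n - 1)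
      (fun x l hl => hA.1 _ (der_foldl n l x (by omega))) (fun x hx => (T_pow hx.pow).2 (by omega))
  · refine lin_case fun x y => hA.1 _ ?_
    obtain rfl | rfl : n = 0 ∨ n = 1 := by omega
    · exact .zero _
    · exact (Der.zero x).mul (.zero y)

end Pool.Agent.Results.MP_3d7de8_lc.Q2
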